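import Pool.Agent.H79.EOPart6

set_option autoImplicit false

namespace Pool.Agent.Results.MP_0dadbb_co.LogCubeBound

open Finset Classical Pool.Agent.H79.EO

/-- number of proper pairs smaller than a given pair in the edge-ordering `f` -/
noncomputable def rk (n : ℕ) (f : Sym2 (Fin n) → ℕ) (e : Sym2 (Fin n)) : ℕ :=
  (Finset.univ.filter (fun e' : Sym2 (Fin n) => ¬ e'.IsDiag ∧ f e' < f e)).card

lemma rk_lt (n : ℕ) (f : Sym2 (Fin n) → ℕ) (e : Sym2 (Fin n)) : rk n f e < n ^ 2 ∨ n = 0 := by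
  by_cases hn : n = 0
  · exact Or.inr hn
  left
  unfold rk
  have h1 : (Finset.univ.filter (fun e' : Sym2 (Fin n) => ¬ e'.IsDiag ∧ f e' < f e)).card <
      Fintype.card (Sym2 (Fin n)) := by
    rw [← Finset.card_univ]
    apply Finset.card_lt_card
    rw [Finset.ssubset_univ_iff]
    intro h
    have : e ∈ (Finset.univ.filter (fun e' : Sym2 (Fin n) => ¬ e'.IsDiag ∧ f e' < f e)) := by
      rw [h]; exact Finset.mem_univ _
    rw [Finset.mem_filter] at this
    exact absurd this.2.2 (lt_irrefl _)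
  refine lt_of_lt_of_le h1 ?_
  have h2 : Fintype.card (Sym2 (Fin n)) ≤ Fintype.card (Fin n × Fin n) :=
    Fintype.card_le_of_surjective (fun q : Fin n × Fin n => s(q.1, q.2)) (by
      intro e
      induction e using Sym2.ind with
      | _ a b => exact ⟨(a, b), rfl⟩)
  rw [Fintype.card_prod, Fintype.card_fin] at h2
  rw [pow_two]; exact h2

lemma rk_strict (n : ℕ) (f : Sym2 (Fin n) → ℕ) (e e' : Sym2 (Fin n)) (he : ¬ e.IsDiag)
    (h : f e < f e') : rk n f e < rk n f e' := by
  unfold rk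
  apply Finset.card_lt_card
  rw [Finset.ssubset_iff_of_subset]
  · refine ⟨e, Finset.mem_filter.2 ⟨Finset.mem_univ _, he, h⟩, ?_⟩
    intro h'
    rw [Finset.mem_filter] at h'
    exact absurd h'.2.2 (lt_irrefl _)
  · intro x hx
    rw [Finset.mem_filter] at hx ⊢
    exact ⟨hx.1, hx.2.1, hx.2.2.trans h⟩

lemma size_bound (n h p : ℕ) (hn : n ≤ 2 ^ h) (hh : 1 ≤ h)
    (hp : p ≤ 2 * (n ^ 2 * (2 * n ^ 2) ^ h * n ^ 2)) :
    p ^ (32 * n * h) ≤ 2 ^ (256 * n * h ^ 3) := by
  have h1 : n ^ 2 ≤ 2 ^ (2 * h) := by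
    rw [Nat.mul_comm, pow_mul]; exact Nat.pow_le_pow_left hn 2
  have h2 : p ≤ 2 ^ (8 * h ^ 2) := by
    calc p ≤ 2 * (n ^ 2 * (2 * n ^ 2) ^ h * n ^ 2) := hp
      _ ≤ 2 * (2 ^ (2 * h) * (2 * 2 ^ (2 * h)) ^ h * 2 ^ (2 * h)) := by gcongr
      _ = 2 ^ (2 * h ^ 2 + 5 * h + 1) := by
          rw [mul_pow, ← pow_mul]; ring
      _ ≤ 2 ^ (8 * h ^ 2) := by
          apply Nat.pow_le_pow_right (by norm_num)
          nlinarith
  calc p ^ (32 * n * h) ≤ (2 ^ (8 * h ^ 2)) ^ (32 * n * h) := Nat.pow_le_pow_left h2 _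
    _ = 2 ^ (256 * n * h ^ 3) := by rw [← pow_mul]; congr 1; ring

/-- For every edge-ordering of the complete graph on `n` vertices the edge-ordered Ramsey number is
at most `2 ^ (256 * n * ⌈log₂ n⌉ ^ 3)`. -/
theorem result (n : ℕ) (f : Sym2 (Fin n) → ℕ)
    (hf : ∀ e e' : Sym2 (Fin n), ¬ e.IsDiag → ¬ e'.IsDiag → f e = f e' → e = e') :
    ∃ N : ℕ, N ≤ 2 ^ (256 * n * (Nat.clog 2 n) ^ 3) ∧
      ∃ g : Sym2 (Fin N) → ℕ,
        (∀ e e' : Sym2 (Fin N), ¬ e.IsDiag → ¬ e'.IsDiag → g e = g e' → e = e') ∧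
        ∀ c : Sym2 (Fin N) → Bool,
          ∃ φ : Fin n ↪ Fin N, ∃ b : Bool,
            (∀ e : Sym2 (Fin n), ¬ e.IsDiag → c (Sym2.map (⇑φ) e) = b) ∧
            ∀ e e' : Sym2 (Fin n), ¬ e.IsDiag → ¬ e'.IsDiag →
              (f e < f e' ↔ g (Sym2.map (⇑φ) e) < g (Sym2.map (⇑φ) e')) := by
  by_cases hn : n < 2
  · -- trivial cases
    have hdiag : ∀ e : Sym2 (Fin n), e.IsDiag := by
      intro e
      induction e using Sym2.ind with
      | _ a b =>
        rw [Sym2.mk_isDiag_iff]
        apply Fin.ext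
        have := a.isLt
        have := b.isLt
        omega
    refine ⟨n, ?_, fun _ => 0, fun e _ he _ _ => absurd (hdiag e) he, fun c =>
      ⟨Function.Embedding.refl _, true, fun e he => absurd (hdiag e) he,
        fun e _ he _ => absurd (hdiag e) he⟩⟩
    have : 1 ≤ 2 ^ (256 * n * (Nat.clog 2 n) ^ 3) := Nat.one_le_two_pow
    omega
  · push Not at hn
    set h := Nat.clog 2 n with hh
    have hh1 : n ≤ 2 ^ h := Nat.le_pow_clog (by norm_num) n
    have hh0 : 1 ≤ h := Nat.clog_pos (by norm_num) hn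
    have hh2 : 2 ^ h ≤ 2 * n := by
      have h1 := Nat.pow_pred_clog_lt_self (b := 2) (x := n) (by norm_num) (by omega)
      rw [← hh] at h1
      have h2 : 2 ^ h = 2 * 2 ^ h.pred := by
        rw [← pow_succ']; congr 1; rw [Nat.pred_eq_sub_one]; omega
      omega
    obtain ⟨p, hpp, hp1, hp2⟩ := Nat.exists_prime_lt_and_le_two_mul
      (n ^ 2 * (2 * n ^ 2) ^ h * n ^ 2) (by positivity)
    haveI : Fact p.Prime := ⟨hpp⟩
    let V := Fin (32 * n * h) → ZMod p
    let eq : V ≃ Fin (Fintype.card V) := Fintype.equivFin V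
    have hcard : Fintype.card V = p ^ (32 * n * h) := by
      rw [Fintype.card_fun, Fintype.card_fin, ZMod.card]
    -- the labels and the edge-ordering of the host
    let Lb : Sym2 (Fin (Fintype.card V)) → ℕ := Sym2.lift
      ⟨fun x y => lab (eq.symm x) (eq.symm y), fun x y => lab_comm _ _⟩
    let K : ℕ := Fintype.card (Sym2 (Fin (Fintype.card V)))
    let idx : Sym2 (Fin (Fintype.card V)) → ℕ := fun e =>
      (Fintype.equivFin (Sym2 (Fin (Fintype.card V))) e).val
    have hidx : ∀ e, idx e < K := fun e => (Fintype.equivFin _ e).isLt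
    let g : Sym2 (Fin (Fintype.card V)) → ℕ := fun e => Lb e * K + idx e
    have hgmono : ∀ e e', Lb e < Lb e' → g e < g e' := by
      intro e e' h
      calc Lb e * K + idx e < Lb e * K + K := by have := hidx e; omega
        _ = (Lb e + 1) * K := by ring
        _ ≤ Lb e' * K := Nat.mul_le_mul_right _ h
        _ ≤ Lb e' * K + idx e' := Nat.le_add_right _ _
    have hginj : ∀ e e', g e = g e' → e = e' := by
      intro e e' h
      have h1 : Lb e = Lb e' := by
        rcases lt_trichotomy (Lb e) (Lb e') with h2 | h2 | h2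
        · exact absurd h (hgmono _ _ h2).ne
        · exact h2
        · exact absurd h (hgmono _ _ h2).ne'
      have h2 : idx e = idx e' := by
        simp only [g, h1] at h
        omega
      exact (Fintype.equivFin (Sym2 (Fin (Fintype.card V)))).injective (Fin.ext h2)
    refine ⟨Fintype.card V, ?_, g, fun e e' _ _ h => hginj e e' h, ?_⟩
    · rw [hcard]; exact size_bound n h p hh1 hh0 hp2
    intro c
    have hr : ∀ a b : Fin n, rk n f s(a, b) < n ^ 2 := by
      intro a b
      rcases rk_lt n f s(a, b) with h | h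
      · exact h
      · omega
    -- from a transversal to a copy
    have final : ∀ (b : Bool) (v : Fin n → V), Function.Injective v →
        (∀ i j, i < j → c s(eq (v i), eq (v j)) = b) →
        (∀ i j i' j', i < j → i' < j' → rk n f s(i, j) < rk n f s(i', j') →
          lab (v i) (v j) < lab (v i') (v j')) →
        ∃ φ : Fin n ↪ Fin (Fintype.card V), ∃ b : Bool,
            (∀ e : Sym2 (Fin n), ¬ e.IsDiag → c (Sym2.map (⇑φ) e) = b) ∧
            ∀ e e' : Sym2 (Fin n), ¬ e.IsDiag → ¬ e'.IsDiag →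
              (f e < f e' ↔ g (Sym2.map (⇑φ) e) < g (Sym2.map (⇑φ) e')) := by
      intro b v hinj hcol hlab
      let φ : Fin n ↪ Fin (Fintype.card V) := ⟨fun i => eq (v i), eq.injective.comp hinj⟩
      have hrep : ∀ e : Sym2 (Fin n), ¬ e.IsDiag → ∃ i j, i < j ∧ e = s(i, j) := by
        intro e
        induction e using Sym2.ind with
        | _ i j =>
          intro hd
          rw [Sym2.mk_isDiag_iff] at hd
          rcases lt_or_gt_of_ne hd with h | h
          · exact ⟨i, j, h, rfl⟩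
          · exact ⟨j, i, h, Sym2.eq_swap⟩
      have hmono : ∀ e e' : Sym2 (Fin n), ¬ e.IsDiag → ¬ e'.IsDiag → f e < f e' →
          g (Sym2.map (⇑φ) e) < g (Sym2.map (⇑φ) e') := by
        intro e e' hd hd' hlt
        obtain ⟨i, j, hij, rfl⟩ := hrep e hd
        obtain ⟨i', j', hij', rfl⟩ := hrep e' hd'
        apply hgmono
        have h1 := hlab i j i' j' hij hij' (rk_strict n f _ _ hd hlt)
        simpa [Lb, φ, Sym2.map_mk] using h1
      refine ⟨φ, b, ?_, ?_⟩
      · intro e hd
        obtain ⟨i, j, hij, rfl⟩ := hrep e hd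
        exact hcol i j hij
      · intro e e' hd hd'
        refine ⟨hmono e e' hd hd', fun hlt => ?_⟩
        by_contra hge
        rcases Nat.lt_or_ge (f e') (f e) with h1 | h1
        · exact absurd (hmono e' e hd' hd h1) (by omega)
        · have : e = e' := hf e e' hd hd' (by omega)
          rw [this] at hlt
          exact absurd hlt (lt_irrefl _)
    rcases host_arrows n hn h hh1 hh2 hh0 p hp1 (fun x y => c s(eq x, eq y) = true)
      (fun a b => rk n f s(a, b)) hr with ⟨v, h1, h2, h3⟩ | ⟨v, h1, h2, h3⟩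
    · exact final true v h1 h2 h3
    · exact final false v h1 (fun i j hij => by simpa using h2 i j hij) h3

end Pool.Agent.Results.MP_0dadbb_co.LogCubeBound
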